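import Pool.Agent.TH905.NPL.Main

set_option autoImplicit false

/-!
# The non-`p`-soluble length is bounded by a law on the Sylow `p`-subgroups

For every prime `p` and every nontrivial group word `w` there is a number `N` such that every finite
group whose Sylow `p`-subgroups satisfy the law `w = 1`, and whose nonabelian composition factors of
order divisible by `p` have `p`-soluble outer automorphism groups, has non-`p`-soluble length at most
`N`.  By the classification of the finite simple groups the condition on the composition factors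
holds in every finite group.

The proof bounds the non-`p`-soluble length by twice the maximal `p`-length of the `p`-soluble
subgroups (this part is elementary, it uses only Sylow's theorem and the Frattini argument) and then
uses the theorem on `p`-soluble groups proved in `Pool.Agent.Helper407.PLFinal`.
-/

namespace Pool.Agent.Results.MP_d83035_al.SchreierGroups

open Pool.Agent.TH905.NPL

/-- `X` is `p`-soluble: it has a subnormal series in which the order of every factor is a power of
`p` or prime to `p`. -/
def PSoluble (p : ℕ) (X : Type) [Group X] : Prop :=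
  ∃ (m : ℕ) (H : ℕ → Subgroup X), H 0 = ⊥ ∧ H m = ⊤ ∧
    ∀ j < m, H j ≤ H (j + 1) ∧ ((H j).subgroupOf (H (j + 1))).Normal ∧
      ((∃ e : ℕ, ((H j).subgroupOf (H (j + 1))).index = p ^ e) ∨
        Nat.Coprime p (((H j).subgroupOf (H (j + 1))).index))

/-- `S` is a composition factor of the (finite) group `G`: it is simple, and it is a quotient of a
subnormal subgroup of `G`. -/
def IsCompositionFactor (G S : Type) [Group G] [Group S] : Prop :=
  IsSimpleGroup S ∧ ∃ M : Subgroup G, M.IsSubnormal ∧ ∃ f : M →* S, Function.Surjective f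

/-- Every nonabelian composition factor `S` of `G` of order divisible by `p` has a `p`-soluble
outer automorphism group `Out S = Aut S / Inn S`. -/
def OutPSoluble (p : ℕ) (G : Type) [Group G] : Prop :=
  ∀ (S : Type) [Group S], IsCompositionFactor G S → (∃ a b : S, a * b ≠ b * a) →
    p ∣ Nat.card S → PSoluble p (MulAut S ⧸ (MulAut.conj : S →* MulAut S).range)

theorem result :
    ∀ (p : ℕ), p.Prime → ∀ (k : ℕ) (w : FreeGroup (Fin k)), w ≠ 1 →
    ∃ N : ℕ, ∀ (G : Type) [Group G] [Finite G], OutPSoluble p G →
      (∀ (P : Sylow p G) (f : Fin k → ↥(P : Subgroup G)), FreeGroup.lift f w = 1) →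
      ∃ s : ℕ → Subgroup G, s 0 = ⊥ ∧ s (2 * N + 1) = ⊤ ∧ (∀ i, s i ≤ s (i + 1)) ∧
        (∀ i, (s i).Normal) ∧
        (∀ i ≤ N, ∃ (m : ℕ) (H : ℕ → Subgroup G), H 0 = s (2 * i) ∧ H m = s (2 * i + 1) ∧
          ∀ j < m, H j ≤ H (j + 1) ∧ ((H j).subgroupOf (H (j + 1))).Normal ∧
            ((∃ e : ℕ, ((H j).subgroupOf (H (j + 1))).index = p ^ e) ∨
              Nat.Coprime p (((H j).subgroupOf (H (j + 1))).index))) ∧
        (∀ i < N, ∃ (m : ℕ) (n : Fin m → ℕ) (T : (j : Fin m) → Subgroup (Equiv.Perm (Fin (n j))))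
          (φ : ↥(s (2 * i + 2)) →* ((j : Fin m) → ↥(T j))),
          Function.Surjective φ ∧ φ.ker = (s (2 * i + 1)).subgroupOf (s (2 * i + 2)) ∧
          ∀ j, IsSimpleGroup ↥(T j) ∧ (∃ a b : ↥(T j), a * b ≠ b * a) ∧
            p ∣ Nat.card ↥(T j)) := by
  intro p hp k w hw
  have hpf : Fact p.Prime := ⟨hp⟩
  obtain ⟨n, hn⟩ := exists_AL (p := p) hw
  refine ⟨2 * n, fun G _ _ hC hlaw => ?_⟩
  have hcond : Cond p G := by
    intro S _ h1 h2 h3 h4
    have hfin : Finite S := by
      obtain ⟨M, -, f, hf⟩ := h4
      exact Finite.of_surjective f hf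
    obtain ⟨m, H, H0, Hm, hH⟩ := hC S ⟨h1, h4⟩ h2 h3
    have := PS.of_chain hH H0
    rwa [Hm] at this
  obtain ⟨s, s0, s1, s2, s3, s4, s5⟩ := lam_bound n G hcond (hn G hlaw)
  exact ⟨s, s0, s1, s2, s3, fun i hi => (s4 i hi).chain, s5⟩

end Pool.Agent.Results.MP_d83035_al.SchreierGroups
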